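import Pool.Agent.N949.TR.Stm2
import Pool.Agent.N929.EY.Win
import Pool.Agent.N547.EG.SEL
import Pool.Agent.N400.EX.TOG
import Pool.Agent.N27.EX.Off
import Pool.Agent.N457.EX.Plq
import Pool.Agent.N348.EX.Up
import Pool.Agent.N348.EX.Few

/-!
# Project TR, PICKE: one family which is good in several windows for most walks, with an
exponentially small error

The proof follows `N477/TR/PICK`, keeping the exponentially small errors.
-/

set_option autoImplicit false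
set_option linter.unusedVariables false

namespace Pool.Agent.N897.TR

open Pool.Agent.H976R2 Pool.Agent.H976R2.Dir Finset
open Pool.Agent.N929.EX Pool.Agent.N929.EY Pool.Agent.N949.TR
open scoped Classical

noncomputable section

/-- two different squares with a common corner -/
def cfl (q q' : ℤ × ℤ) : Prop := q ≠ q' ∧ ∃ v, Cn q v ∧ Cn q' v

/-- the box -/
def Ub (n : ℕ) : Finset (ℤ × ℤ) :=
  (Icc (-((n : ℤ) + 2)) ((n : ℤ) + 2)) ×ˢ (Icc (-((n : ℤ) + 2)) ((n : ℤ) + 2))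

theorem cfl_symm (q q' : ℤ × ℤ) (h : cfl q q') : cfl q' q := by
  obtain ⟨h1, v, h2, h3⟩ := h
  exact ⟨fun e => h1 e.symm, v, h3, h2⟩

theorem cfl_card (U : Finset (ℤ × ℤ)) (q : ℤ × ℤ) : (U.filter (fun q' => cfl q q')).card ≤ 9 := by
  have hsub : U.filter (fun q' => cfl q q') ⊆
      (Icc (q.1 - 1) (q.1 + 1)) ×ˢ (Icc (q.2 - 1) (q.2 + 1)) := by
    intro q' hq'
    rw [mem_filter] at hq'
    obtain ⟨-, -, v, ⟨a1, a2⟩, ⟨b1, b2⟩⟩ := hq'
    rw [mem_product, mem_Icc, mem_Icc]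
    refine ⟨⟨?_, ?_⟩, ⟨?_, ?_⟩⟩ <;> omega
  refine (card_le_card hsub).trans ?_
  rw [card_product, Int.card_Icc, Int.card_Icc]
  have e1 : (q.1 + 1 + 1 - (q.1 - 1)).toNat = 3 := by omega
  have e2 : (q.2 + 1 + 1 - (q.2 - 1)).toNat = 3 := by omega
  rw [e1, e2]

/-- the real analysis of the error terms -/
theorem err4 (K : ℝ) (hK : 0 ≤ K) (κ : ℕ) (hκ : 1 ≤ κ) :
    ∀ (n : ℕ), ∀ g : ℕ, 2 * κ * K * Real.log n ^ 2 ≤ g →
    (2 / 7 : ℝ) ^ (g / κ) * Real.exp (K * Real.log n ^ 2) * 4 ≤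
      11 * Real.exp (-((g : ℝ) / (2 * κ))) := by
  have hκR : (1 : ℝ) ≤ κ := by exact_mod_cast hκ
  intro n g hg
  obtain ⟨l, hl⟩ : ∃ l : ℝ, l = Real.log n := ⟨_, rfl⟩
  rw [← hl] at hg ⊢
  obtain ⟨m, hm⟩ : ∃ m : ℕ, m = g / κ := ⟨_, rfl⟩
  rw [← hm]
  have hm1 : g < κ * (m + 1) := by
    rw [hm]
    exact Nat.lt_mul_div_succ g (by omega)
  have hm2 : (g : ℝ) < κ * ((m : ℝ) + 1) := by exact_mod_cast hm1
  obtain ⟨z, hz⟩ : ∃ z : ℝ, z = (g : ℝ) / (2 * κ) := ⟨_, rfl⟩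
  have hz1 : (g : ℝ) = 2 * κ * z := by
    rw [hz]
    field_simp
  rw [← hz]
  have hz2 : 2 * z < (m : ℝ) + 1 := by
    rw [hz1] at hm2
    have h0 : (κ : ℝ) * (2 * z) < κ * ((m : ℝ) + 1) := by linarith
    exact lt_of_mul_lt_mul_left h0 (by linarith)
  have hz3 : K * l ^ 2 ≤ z := by
    rw [hz1] at hg
    have h0 : (2 * (κ : ℝ)) * (K * l ^ 2) ≤ (2 * κ) * z := by linarith
    exact le_of_mul_le_mul_left h0 (by linarith)
  have h7 : (2.7182818286 : ℝ) > Real.exp 1 := Real.exp_one_lt_d9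
  have hp : (2 / 7 : ℝ) ^ m ≤ Real.exp (-(m : ℝ)) := by
    have h9 : (2 / 7 : ℝ) ≤ Real.exp (-1) := by
      rw [Real.exp_neg, ← one_div, div_le_div_iff₀ (by norm_num) (Real.exp_pos _)]
      linarith
    calc (2 / 7 : ℝ) ^ m ≤ Real.exp (-1) ^ m := pow_le_pow_left₀ (by norm_num) h9 m
      _ = Real.exp (-(m : ℝ)) := by rw [← Real.exp_nat_mul]; ring_nf
  calc (2 / 7 : ℝ) ^ m * Real.exp (K * l ^ 2) * 4
      ≤ Real.exp (-(m : ℝ)) * Real.exp (K * l ^ 2) * 4 := by gcongr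
    _ = Real.exp (-(m : ℝ) + K * l ^ 2) * 4 := by rw [Real.exp_add]
    _ ≤ Real.exp (1 + -z) * 4 :=
        mul_le_mul_of_nonneg_right (Real.exp_le_exp.mpr (by linarith)) (by norm_num)
    _ = Real.exp 1 * Real.exp (-z) * 4 := by rw [Real.exp_add]
    _ ≤ 11 * Real.exp (-z) := by
        have := Real.exp_pos (-z)
        nlinarith

/-- for most walks most families are good in a given window -/
theorem fam2 (κ₀ : ℕ) (hκ₀ : 1 ≤ κ₀)
    (hsel : ∀ (σ : Type) (U : Finset σ) (cf : σ → σ → Prop),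
    (∀ q q', cf q q' → cf q' q) → (∀ q ∈ U, (U.filter (fun q' => cf q q')).card ≤ 9) →
    ∃ (ι : Type) (_ : Fintype ι) (_ : Nonempty ι) (Λ : ι → Finset σ),
      (∀ i, Λ i ⊆ U ∧ ∀ q ∈ Λ i, ∀ q' ∈ Λ i, q ≠ q' → ¬ cf q q') ∧
      ∀ P ⊆ U, ((univ.filter (fun i => κ₀ * (Λ i ∩ P).card < P.card)).card : ℝ) ≤
        Real.exp (-((P.card : ℝ) / κ₀)) * Fintype.card ι)
    (hoff : S_OFF) (hplq : S_PLQ) (hup : S_UP) (hfew : S_FEW) :
    ∃ A D : ℝ, 0 < A ∧ 0 < D ∧ ∀ n : ℕ, 2 ≤ n → ∃ (ι : Type) (_ : Fintype ι) (_ : Nonempty ι)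
      (Λ : ι → Finset (ℤ × ℤ)), (∀ i, CF (Λ i)) ∧ ∀ a b : ℕ, a ≤ b → b ≤ n →
        A * Real.log n ^ 2 ≤ (b : ℝ) - a →
        ∃ (F : Finset (List Dir)) (E : ι → Finset (List Dir)),
          (F.card : ℝ) ≤ D * Real.exp (-(((b - a : ℕ) : ℝ) / 5000)) * ((SW n).card : ℝ) ∧
          (∀ i, ((E i).card : ℝ) ≤
            11 * Real.exp (-(((b - a : ℕ) : ℝ) / (200000 * κ₀))) * ((SW n).card : ℝ)) ∧
          ∀ w ∈ SW n, w ∉ F →
            ((univ.filter (fun i => w ∉ E i ∧ ¬ GK (100000 * κ₀) (Λ i) a b w)).card : ℝ) ≤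
              Real.exp (-(((b - a : ℕ) : ℝ) / (4000 * κ₀))) * Fintype.card ι := by
  obtain ⟨A1, D, hA1, hD, hF⟩ := few_win hfew
  obtain ⟨μ, K, hμ, hK, hlow, hupp⟩ := hup
  have hκR : (1 : ℝ) ≤ κ₀ := by exact_mod_cast hκ₀
  have hE := err4 K hK (100000 * κ₀) (by omega)
  obtain ⟨A2, hA2e⟩ : ∃ A2 : ℝ, A2 = 2 * ((100000 * κ₀ : ℕ) : ℝ) * K := ⟨_, rfl⟩
  have hA2 : 0 ≤ A2 := by rw [hA2e]; positivity
  refine ⟨A1 + A2 + 1000, D, by positivity, hD, fun n hn => ?_⟩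
  obtain ⟨ι, hι1, hι2, Λ, hΛ, hsel⟩ := hsel (ℤ × ℤ) (Ub n) cfl cfl_symm
    (fun q _ => cfl_card (Ub n) q)
  have hCF : ∀ i, CF (Λ i) := by
    intro i p hp q hq hpq v hv
    exact (hΛ i).2 p hp q hq hpq ⟨hpq, v, hv.1, hv.2⟩
  refine ⟨ι, hι1, hι2, Λ, hCF, fun a b hab hbn hg => ?_⟩
  have hlog2 : 0 ≤ Real.log n ^ 2 := sq_nonneg _
  have c2 : ((b - a : ℕ) : ℝ) = b - a := by rw [Nat.cast_sub (by omega)]
  have hn' : (2 : ℝ) ≤ n := by exact_mod_cast hn
  have hlog : (0.69 : ℝ) ≤ Real.log n := by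
    have := Real.log_two_gt_d9
    have h3 : Real.log 2 ≤ Real.log n := Real.log_le_log (by norm_num) hn'
    linarith
  have hl2 : (0.476 : ℝ) ≤ Real.log n ^ 2 := by nlinarith
  have g3 : 100 ≤ b - a := by
    have h1 : (100 : ℝ) ≤ ((b - a : ℕ) : ℝ) := by
      rw [c2]
      nlinarith [mul_nonneg hA1.le hlog2, mul_nonneg hA2 hlog2]
    exact_mod_cast h1
  have hg1 : A1 * Real.log n ^ 2 ≤ (b : ℝ) - a := by nlinarith [mul_nonneg hA2 hlog2]
  have hg2 : A2 * Real.log n ^ 2 ≤ ((b - a : ℕ) : ℝ) := by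
    rw [c2]; nlinarith [mul_nonneg hA1.le hlog2]
  rw [hA2e] at hg2
  have g2 := hE n (b - a) hg2
  have hcn : (0 : ℝ) < ((SW n).card : ℝ) := lt_of_lt_of_le (by positivity) (hlow n)
  obtain ⟨c, hcc⟩ : ∃ c : ℝ, c = ((SW n).card : ℝ) := ⟨_, rfl⟩
  rw [← hcc] at hcn
  obtain ⟨a', ha'⟩ : ∃ a' : ℕ, a' = (b - a) / (100000 * κ₀) := ⟨_, rfl⟩
  have hdiv : 100000 * κ₀ * a' ≤ b - a := by
    rw [ha']
    exact Nat.mul_div_le _ _
  have ha'2 : 100000 * a' ≤ 100000 * κ₀ * a' := Nat.mul_le_mul_right _ (by omega)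
  rw [← ha'] at g2
  refine ⟨(SW n).filter (fun w => 4000 * BW (a + 1) (n - b + 2) w < b - a),
    fun i => (SW n).filter (fun w => 8 * a' ≤ (OO (Λ i) 1 (a, b) w).card ∧
      (DD (Λ i) 1 (a, b) w).card ≤ (OO (Λ i) 1 (a, b) w).card + a'), ?_, ?_, ?_⟩
  · exact hF n a b hn hab hbn hg1
  · intro i
    have q1 := hoff (Λ i) (hCF i) 1 (a, b) n a' a' (8 * a') hab hbn le_rfl le_rfl (by simp)
      (by intro _; simp only; omega) (by simp)
    refine q1.trans ?_
    have g4 := hupp (n - 2 * a') n hn (by omega)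
    have g5 : μ ^ (n - 2 * a') ≤ c := by
      rw [hcc]
      refine le_trans ?_ (hlow n)
      exact pow_le_pow_right₀ (by linarith) (by omega)
    rw [← hcc]
    calc (2 / 7 : ℝ) ^ a' * ((SW (n - 2 * a')).card : ℝ)
        ≤ (2 / 7 : ℝ) ^ a' * (4 * (c * Real.exp (K * Real.log n ^ 2))) := by
          refine mul_le_mul_of_nonneg_left (g4.trans ?_) (by positivity)
          gcongr
      _ = ((2 / 7 : ℝ) ^ a' * Real.exp (K * Real.log n ^ 2) * 4) * c := by ring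
      _ ≤ (11 * Real.exp (-(((b - a : ℕ) : ℝ) / (2 * ((100000 * κ₀ : ℕ) : ℝ))))) * c := by
          gcongr
      _ = 11 * Real.exp (-(((b - a : ℕ) : ℝ) / (200000 * κ₀))) * c := by
          have e9 : 2 * ((100000 * κ₀ : ℕ) : ℝ) = 200000 * κ₀ := by
            push_cast
            ring
          rw [e9]
  · intro w hw hwF
    obtain ⟨P, hP1, hP2, hP3⟩ := plw hplq (a := a) (b := b) (by omega) hbn hw
    have hPc : b - a ≤ 4000 * P.card := by
      rw [mem_filter] at hwF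
      push Not at hwF
      have := hwF hw
      omega
    have hs := hsel P (fun p hp => by
      have := hP1 p hp
      rw [abs_le, abs_le] at this
      unfold Ub
      rw [mem_product, mem_Icc, mem_Icc]
      refine ⟨⟨?_, ?_⟩, ⟨?_, ?_⟩⟩ <;> omega)
    have hsub : (univ.filter (fun i => w ∉ (SW n).filter (fun w =>
        8 * a' ≤ (OO (Λ i) 1 (a, b) w).card ∧
        (DD (Λ i) 1 (a, b) w).card ≤ (OO (Λ i) 1 (a, b) w).card + a') ∧
        ¬ GK (100000 * κ₀) (Λ i) a b w)).card ≤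
        (univ.filter (fun i => κ₀ * (Λ i ∩ P).card < P.card)).card := by
      refine card_le_card (fun i hi => ?_)
      rw [mem_filter] at hi ⊢
      refine ⟨mem_univ _, ?_⟩
      obtain ⟨-, h1, h2⟩ := hi
      rw [mem_filter] at h1
      by_contra hcon
      push Not at hcon
      have h3 := card_le_card (hP2 (Λ i))
      have h6 : κ₀ * (Λ i ∩ P).card ≤ κ₀ * (OO (Λ i) 1 (a, b) w).card :=
        Nat.mul_le_mul_left _ h3
      have h7 : κ₀ * (25 * a') ≤ κ₀ * (OO (Λ i) 1 (a, b) w).card := by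
        have h8 : κ₀ * (25 * a') * 4000 = 100000 * κ₀ * a' := by ring
        omega
      have h9 : 25 * a' ≤ (OO (Λ i) 1 (a, b) w).card := Nat.le_of_mul_le_mul_left h7 (by omega)
      have h4 : 8 * a' ≤ (OO (Λ i) 1 (a, b) w).card := by omega
      have h5 : ¬ (DD (Λ i) 1 (a, b) w).card ≤
          (OO (Λ i) 1 (a, b) w).card + a' := fun h => h1 ⟨hw, h4, h⟩
      apply h2
      unfold GK
      rw [← ha']
      constructor
      · omega
      · omega
    have hsub' : ((univ.filter (fun i => w ∉ (SW n).filter (fun w =>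
        8 * a' ≤ (OO (Λ i) 1 (a, b) w).card ∧
        (DD (Λ i) 1 (a, b) w).card ≤ (OO (Λ i) 1 (a, b) w).card + a') ∧
        ¬ GK (100000 * κ₀) (Λ i) a b w)).card : ℝ) ≤
        ((univ.filter (fun i => κ₀ * (Λ i ∩ P).card < P.card)).card : ℝ) := by
      exact_mod_cast hsub
    have hs' : ((univ.filter (fun i => κ₀ * (Λ i ∩ P).card < P.card)).card : ℝ) ≤
        Real.exp (-((P.card : ℝ) / κ₀)) * Fintype.card ι := by
      refine le_trans (le_of_eq (congrArg (fun z : ℕ => (z : ℝ)) (congrArg Finset.card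
        (Finset.filter_congr fun i _ => ?_)))) hs
      exact iff_of_eq (congrArg (fun z : Finset (ℤ × ℤ) => κ₀ * z.card < P.card)
        (by ext p; simp only [mem_inter]))
    refine hsub'.trans (hs'.trans ?_)
    refine mul_le_mul_of_nonneg_right ?_ (Nat.cast_nonneg _)
    apply Real.exp_le_exp.mpr
    have h10 : ((b - a : ℕ) : ℝ) ≤ 4000 * (P.card : ℝ) := by exact_mod_cast hPc
    have h11 : ((b - a : ℕ) : ℝ) / (4000 * κ₀) ≤ (P.card : ℝ) / κ₀ := by
      rw [div_le_div_iff₀ (by positivity) (by positivity)]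
      nlinarith
    linarith

/-- one family which is good in several windows for most walks -/
theorem pick_of (hs : Pool.Agent.N929.EG.S_SEL) (hoff : S_OFF) (hplq : S_PLQ) (hup : S_UP)
    (hfew : S_FEW) : S_PICKE := by
  obtain ⟨κ₀, hκ₀, hsel⟩ := hs 9
  refine ⟨100000 * κ₀, by omega, fun N => ?_⟩
  obtain ⟨A, D, hA, hD, h⟩ := fam2 κ₀ hκ₀ hsel hoff hplq hup hfew
  have hκR : (1 : ℝ) ≤ κ₀ := by exact_mod_cast hκ₀
  obtain ⟨C, hCe⟩ : ∃ C : ℝ, C = N + D + 11 + 5000 + 200000 * κ₀ := ⟨_, rfl⟩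
  have hN0 : (0 : ℝ) ≤ N := Nat.cast_nonneg N
  have hC : 0 < C := by rw [hCe]; positivity
  refine ⟨A, C, hA, hC, fun n hn W x hx0 hW => ?_⟩
  obtain ⟨ι, hι1, hι2, Λ, hΛ, hw⟩ := h n hn
  have hw'' := fun t => hw (W t).1 (W t).2 (hW t).1 (hW t).2.1 (hW t).2.2.1
  choose F E hF hE hFE using hw''
  obtain ⟨c, hcc⟩ : ∃ c : ℝ, c = ((SW n).card : ℝ) := ⟨_, rfl⟩
  have hc0 : 0 ≤ c := by rw [hcc]; positivity
  rw [← hcc] at hF hE ⊢
  obtain ⟨B, hB⟩ : ∃ B : Fin N → ι → Finset (List Dir), ∀ t i, B t i = (SW n).filter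
    (fun w => w ∉ F t ∧ w ∉ E t i ∧ ¬ GK (100000 * κ₀) (Λ i) (W t).1 (W t).2 w) :=
    ⟨_, fun _ _ => rfl⟩
  have hM0 : (0 : ℝ) < (Fintype.card ι : ℝ) := by exact_mod_cast Fintype.card_pos
  obtain ⟨ε, hε⟩ : ∃ ε : ℝ, ε = Real.exp (-(x / (4000 * κ₀))) := ⟨_, rfl⟩
  have hε0 : 0 ≤ ε := by rw [hε]; positivity
  -- the mean over the families
  have hmean : ∀ t, ∑ i : ι, ((B t i).card : ℝ) ≤ ε * c * (Fintype.card ι : ℝ) := by
    intro t
    have e1 : ∑ i : ι, ((B t i).card : ℝ) = ∑ w ∈ SW n, ∑ i : ι,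
        (if w ∉ F t ∧ w ∉ E t i ∧ ¬ GK (100000 * κ₀) (Λ i) (W t).1 (W t).2 w
          then (1 : ℝ) else 0) := by
      rw [Finset.sum_comm]
      refine Finset.sum_congr rfl (fun i _ => ?_)
      rw [hB, Finset.card_filter]
      push_cast
      rfl
    rw [e1]
    calc ∑ w ∈ SW n, ∑ i : ι,
        (if w ∉ F t ∧ w ∉ E t i ∧ ¬ GK (100000 * κ₀) (Λ i) (W t).1 (W t).2 w
          then (1 : ℝ) else 0)
        ≤ ∑ w ∈ SW n, (ε * (Fintype.card ι : ℝ)) := by
          refine sum_le_sum (fun w hw => ?_)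
          by_cases hwF : w ∈ F t
          · have : ∑ i : ι, (if w ∉ F t ∧ w ∉ E t i ∧
                ¬ GK (100000 * κ₀) (Λ i) (W t).1 (W t).2 w then (1 : ℝ) else 0) = 0 := by
              refine Finset.sum_eq_zero (fun i _ => ?_)
              rw [if_neg (fun h => h.1 hwF)]
            rw [this]
            positivity
          · have g1 := hFE t w hw hwF
            have e2 : ∑ i : ι, (if w ∉ F t ∧ w ∉ E t i ∧
                ¬ GK (100000 * κ₀) (Λ i) (W t).1 (W t).2 w then (1 : ℝ) else 0) =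
                ((univ.filter (fun i => w ∉ E t i ∧
                  ¬ GK (100000 * κ₀) (Λ i) (W t).1 (W t).2 w)).card : ℝ) := by
              rw [Finset.card_filter]
              push_cast
              refine Finset.sum_congr rfl (fun i _ => ?_)
              by_cases hh : w ∉ E t i ∧ ¬ GK (100000 * κ₀) (Λ i) (W t).1 (W t).2 w
              · rw [if_pos hh, if_pos ⟨hwF, hh⟩]
              · rw [if_neg hh, if_neg (fun h => hh h.2)]
            rw [e2]
            refine g1.trans (mul_le_mul_of_nonneg_right ?_ hM0.le)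
            rw [hε]
            apply Real.exp_le_exp.mpr
            have g3 := (hW t).2.2.2
            have g4 : x / (4000 * (κ₀ : ℝ)) ≤
                (((W t).2 - (W t).1 : ℕ) : ℝ) / (4000 * (κ₀ : ℝ)) :=
              div_le_div_of_nonneg_right g3 (by positivity)
            linarith
      _ = _ := by rw [Finset.sum_const, nsmul_eq_mul, ← hcc]; ring
  have hex : ∃ i : ι, ∑ t : Fin N, ((B t i).card : ℝ) ≤ N * (ε * c) := by
    by_contra hcon
    push Not at hcon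
    have h1 : ∑ i : ι, (N * (ε * c)) < ∑ i : ι, ∑ t : Fin N, ((B t i).card : ℝ) :=
      Finset.sum_lt_sum_of_nonempty Finset.univ_nonempty (fun i _ => hcon i)
    rw [Finset.sum_comm, Finset.sum_const, nsmul_eq_mul] at h1
    have h2 : (Finset.univ : Finset ι).card = Fintype.card ι := rfl
    rw [h2] at h1
    have h3 : ∑ t : Fin N, ∑ i : ι, ((B t i).card : ℝ) ≤
        ∑ t : Fin N, ε * c * (Fintype.card ι : ℝ) := sum_le_sum (fun t _ => hmean t)
    rw [Finset.sum_const, nsmul_eq_mul, Finset.card_univ, Fintype.card_fin] at h3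
    have e3 : (Fintype.card ι : ℝ) * (N * (ε * c)) = N * (ε * c * (Fintype.card ι : ℝ)) := by
      ring
    linarith
  obtain ⟨i, hi⟩ := hex
  refine ⟨Λ i, hΛ i, fun t => ?_⟩
  have hb : (((SW n).filter (fun w => ¬ GK (100000 * κ₀) (Λ i) (W t).1 (W t).2 w)).card : ℝ) ≤
      (B t i).card + (D * Real.exp (-((((W t).2 - (W t).1 : ℕ) : ℝ) / 5000)) * c +
        11 * Real.exp (-((((W t).2 - (W t).1 : ℕ) : ℝ) / (200000 * κ₀))) * c) := by
    have : (SW n).filter (fun w => ¬ GK (100000 * κ₀) (Λ i) (W t).1 (W t).2 w) ⊆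
        B t i ∪ (F t ∪ E t i) := by
      intro w hw
      rw [mem_filter] at hw
      rw [mem_union, mem_union]
      by_cases h1 : w ∈ F t
      · exact Or.inr (Or.inl h1)
      · by_cases h2 : w ∈ E t i
        · exact Or.inr (Or.inr h2)
        · left; rw [hB, mem_filter]; exact ⟨hw.1, h1, h2, hw.2⟩
    have h3 := (card_le_card this).trans (card_union_le _ _)
    have h4 := card_union_le (F t) (E t i)
    have h5 : ((SW n).filter (fun w => ¬ GK (100000 * κ₀) (Λ i) (W t).1 (W t).2 w)).card ≤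
        (B t i).card + ((F t).card + (E t i).card) := h3.trans (by omega)
    have h6 : (((SW n).filter (fun w =>
        ¬ GK (100000 * κ₀) (Λ i) (W t).1 (W t).2 w)).card : ℝ) ≤
        (B t i).card + ((F t).card + (E t i).card) := by exact_mod_cast h5
    linarith [hF t, hE t i]
  have hBt : ((B t i).card : ℝ) ≤ N * (ε * c) := by
    refine le_trans ?_ hi
    exact Finset.single_le_sum (f := fun t => ((B t i).card : ℝ)) (fun _ _ => Nat.cast_nonneg _)
      (mem_univ t)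
  -- the exponentials
  have hx1 : x ≤ (((W t).2 - (W t).1 : ℕ) : ℝ) := (hW t).2.2.2
  have hgen : ∀ (M y : ℝ), 0 < M → M ≤ C → x ≤ y → Real.exp (-(y / M)) ≤ Real.exp (-(x / C)) := by
    intro M y hM hMC hxy
    apply Real.exp_le_exp.mpr
    have h1 : x / C ≤ y / M := by
      calc x / C ≤ x / M := div_le_div_of_nonneg_left hx0 hM hMC
        _ ≤ y / M := div_le_div_of_nonneg_right hxy hM.le
    linarith
  have x1 := hgen 5000 _ (by norm_num) (by rw [hCe]; nlinarith) hx1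
  have x2 := hgen (200000 * κ₀) _ (by positivity) (by rw [hCe]; nlinarith) hx1
  have x3 : ε ≤ Real.exp (-(x / C)) := by
    rw [hε]
    exact hgen (4000 * κ₀) x (by positivity) (by rw [hCe]; nlinarith) le_rfl
  obtain ⟨η, hη⟩ : ∃ η : ℝ, η = Real.exp (-(x / C)) := ⟨_, rfl⟩
  rw [← hη] at x1 x2 x3 ⊢
  have hη0 : 0 ≤ η := by rw [hη]; positivity
  have y1 : D * Real.exp (-((((W t).2 - (W t).1 : ℕ) : ℝ) / 5000)) * c ≤ D * η * c := by
    gcongr
  have y2 : 11 * Real.exp (-((((W t).2 - (W t).1 : ℕ) : ℝ) / (200000 * κ₀))) * c ≤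
      11 * η * c := by
    gcongr
  have y3 : (N : ℝ) * (ε * c) ≤ N * (η * c) := by
    gcongr
  have y4 : (N + D + 11) * (η * c) ≤ C * (η * c) := by
    apply mul_le_mul_of_nonneg_right _ (by positivity)
    rw [hCe]
    nlinarith
  calc _ ≤ _ := hb
    _ ≤ N * (η * c) + (D * η * c + 11 * η * c) := by linarith
    _ = (N + D + 11) * (η * c) := by ring
    _ ≤ C * (η * c) := y4
    _ = C * η * c := by ring

theorem picke : S_PICKE :=
  pick_of Pool.Agent.N547.EG.Sel.sel (Pool.Agent.N27.EX.off Pool.Agent.N400.EX.tog)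
    Pool.Agent.N457.EX.plq Pool.Agent.N348.EX.up
    (Pool.Agent.N348.EX.few_of_up Pool.Agent.N348.EX.up)

end

end Pool.Agent.N897.TR
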